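import Pool.Agent.N567.MD.MainZ

/-!
# The Albanese kernel and homologically trivial correspondences

Beilinson's conjecture predicts that the Albanese maps `CH_0(X)_0 → Alb(X)` are injective for the
smooth projective varieties `X` over the algebraic numbers. It is shown that this is equivalent to a
statement which does not involve Albanese varieties: the homologically trivial self-correspondences
of surfaces act as zero on the zero-cycles of degree zero; or, on threefolds the product of a divisor
class and the class of a one-cycle vanishes if both are homologically trivial. By the theorem of
Roitman it is sufficient to consider rational coefficients.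

The idea of the proof. A zero-cycle `z` of degree zero on `X` is the push-forward of divisor classes
`y` of degree zero on curves `f : T → X`. Let `E` be a self-correspondence of `X` of degree zero which
acts as the identity on `H^(2d-1)(X)`, `d = dim X`, and which factors through a curve. Then
`(f_* - E f_*) π_1` is homologically trivial, where `π_1` is the projector on `h^1(T)`, and if such
correspondences kill the classes `y`, then `z = E z`. If `z` is in the kernel of the Albanese map,
`E z = 0` by the theorem of Abel. The action of a homologically trivial correspondence from `T` to a
surface `S` is controlled by self-correspondences of an ample divisor on `S × T`.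
-/

set_option autoImplicit false

universe u v w

namespace Pool.Agent.Results.MP_2eeeac_ag.HomTrivialSelfCorrespondences

open Pool.Agent.H914 Pool.Agent.N164.Prim Pool.Agent.N567.Mid
open Pool.Agent.W492.BB (TheoryData WeilTheoryData)

/-- Let `𝒱` be a class of varieties (with Chow groups `C`, a Weil cohomology `H` and the kernels
`N X j` of the Abel-Jacobi maps; `N X (dim X)` is the kernel of the Albanese map) which contains
enough curves and surfaces. The following are equivalent:

* the Albanese maps of all `X` in `𝒱` are injective;
* the Albanese maps of all surfaces are injective;
* the homologically trivial self-correspondences of degree zero of all `X` in `𝒱` act as zero on the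
  zero-cycles of degree zero;
* the same for surfaces `X`;
* `z w = 0` for homologically trivial classes `z` and `w` of complementary codimensions on `X`;
* `z w = 0` for homologically trivial divisor classes `z` and homologically trivial classes `w` of
  one-cycles on threefolds;
* correspondences which map zero-cycles on `X` to zero-cycles on `Y` and act as zero on
  `H^(2 dim X - 1)(X)` act as zero on zero-cycles of degree zero. -/
theorem result {k : Type u} [Field k] {𝒱 : VarClass k} {C : TheoryData.{u, v, 0} 𝒱 ℚ}
    [IsChowTheory C] {K : Type w} [Field K] {H : WeilTheoryData.{u, v, w} C K} [IsWeilTheory H]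
    {N : ∀ X : 𝒱.Obj, ℕ → Sub C X} (hN : IsAbelJacobiKernel H N)
    (hG : HasCurvesAndSurfaces H N) :
    List.TFAE [∀ (X : 𝒱.Obj) (z : C.A X), Mem (N X X.dim) z → z = zero C X,
      ∀ X : 𝒱.Obj, X.dim = 2 → ∀ z : C.A X, Mem (N X 2) z → z = zero C X,
      ∀ X : 𝒱.Obj, HomActsTrivially H X X.dim,
      ∀ X : 𝒱.Obj, X.dim = 2 → HomActsTrivially H X 2,
      ∀ (X : 𝒱.Obj) (i j : ℕ) (z w : C.A X), i + j = X.dim → HomTriv H i z →
        HomTriv H j w → C.mul z w = zero C X,
      ∀ X : 𝒱.Obj, X.dim = 3 → ∀ z w : C.A X, HomTriv H 1 z → HomTriv H 2 w →
        C.mul z w = zero C X,
      ∀ (X Y : 𝒱.Obj) (Γ : Cor C X Y), Maps C Γ X.dim Y.dim →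
        Kills H Γ (2 * X.dim - 1) → ∀ z : C.A X, HomTriv H X.dim z →
          C.act Γ z = zero C Y] :=
  mainZ inferInstance inferInstance hN hG

end Pool.Agent.Results.MP_2eeeac_ag.HomTrivialSelfCorrespondences
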