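import Mathlib
import Pool.Agent.N994.VO.AJ3

/-!
# The Albanese map for varieties without higher forms which are dominated by abelian varieties

Let `X` be a complex abelian variety in the classes (a), (b) below, and `M = (X, p)` a direct summand of
the Chow motive of `X`, for example `M = h(V)`, where `V` is a smooth projective variety which is the
image of `X`, or the image of a product of curves of positive genus such that the product of their
Jacobians is `X`. The Chow groups have rational coefficients.

The theorem: if `h^(t, 0)(M) = h^(0, t)(M) = 0` for all `t ≥ 2`, then the Albanese map is injective on the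
zero-cycles of degree zero on `M`. So if `V` is defined over the algebraic numbers, its complex motive
is such a direct summand and it has no forms of degree at least two, then the Albanese map of `V` is
injective: its kernel is torsion by the theorem, since the Chow groups of `V` with rational
coefficients inject into those of the complex variety, and it is torsion-free by Roitman's theorem.

Let `P` be the class of all simple complex abelian varieties `Y`, of any dimension, such that the
periods of `Y` have coordinates (with respect to a basis of the tangent space) in a subfield `k` of
`ℂ` as follows: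

* `k` is a number field of degree at most four, and `Y` has no complex multiplication;
* `k` is a number field of degree at most six, and `End(Y)` is of Albert type I or II;
* `k` is a number field of odd degree, or no totally real subfield `F ≠ ℚ` of `k` is fixed by all real
  embeddings of `k` and `k` contains no imaginary quadratic field (for instance `k = ℚ(t)`), and
  moreover `dim Y` is odd, or `End(Y)` is of Albert type I or II and the relative dimension is not
  one of the numbers `2 ^ j`, `j ≥ 4`, `j ≡ 0, 1` modulo `4` and, if `k` is a number field,
  `2 j + 2 ≤ [k : ℚ]`;
* `k` is a number field of odd degree and `dim Y ≤ 7`; or no totally real subfield `F ≠ ℚ` of `k` is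
  fixed by all real embeddings of `k`, `dim Y ≤ 7`, and `End(Y)` is of Albert type I or II or `k`
  contains no imaginary quadratic field (and `Y` has trivial discriminant if `dim Y = 6` and `End(Y)`
  is an imaginary quadratic field).

(`SmallPeriods` and `GenericPeriods` in `Pool.Agent.N994.PG.Stm`.) The abelian varieties with periods
in number fields of a given degree `n > 2` are dense in the moduli spaces, in all dimensions.

(a) All simple factors of `X` are in `P` or are factors of an abelian variety `A` of dimension at most
three.

(b) There are finitely many CM types `T k`, divided into independent blocks, such that for each block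
all CM types of the CM fields in this block are simultaneously conjugate, or the total dimension of the block is at
most three, or the block consists of all CM types of a Galois CM field of degree at most six; and
each simple factor of `X` is in `P`, or is a factor of one of the abelian varieties with the CM types
`T k`, or has no complex multiplication and belongs to one of the classes in `Typ` below (of any
dimension), where an imaginary quadratic field which acts with two different multiplicities on the
tangent space must be the field of an elliptic curve of the first kind (fourfolds with such an action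
are excluded).

The proof. By results on the Hodge groups of the abelian varieties in `P`
(`Pool.Agent.N994.FH.typ_of_periods`) and the theorem of
`Pool.Agent.Results.MP_90e98f_ag.PowersAndCMFields` (by helper178) the generalized Hodge conjecture is
true for `X`, in all degrees and for all levels. The deduction from the generalized Hodge conjecture
(`Pool.Agent.N178.MU.aj_range`) is by helper178, see
`Pool.Agent.Results.MP_e28333_ag.HodgeRanges` for the classes without `P`, and for other ranges.

The structures `ChowTheory` (`Pool.Agent.N178.BL.Defs`), `Projectors` (`Pool.Agent.N178.MU.Defs`) and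
`AJMap` (`Pool.Agent.N994.VO.AJDefs`) collect the known properties of the Chow groups of complex
abelian varieties which are used: the formal properties of correspondences; Kimura's theorem that
homologically trivial endomorphisms of the motive are nilpotent; the semisimplicity of the category of
motives of abelian varieties modulo homological equivalence (Jannsen, Lieberman); the algebraic
classes are a system `Sys` (Lefschetz, Markman); the algebraicity of the isomorphisms
`H^n(Y, ℚ) ≅ H_n(Y, ℚ)` given by a polarization (Lieberman); the projectors of Deninger and Murre;
Künnemann's isomorphism `h_n(X) ≅ h^n(X)` up to a twist, and Beauville's theorem that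
`CH^p(h^n(X)) = 0` for `p ≤ 1` and `n > 2 p`; the functoriality of the Abel–Jacobi map; the injectivity
of the Albanese map on `CH_0(h_1(Y))`.
-/

namespace Pool.Agent.Results.MP_2eeeac_ag.NoHigherForms

open Module NumberField Pool.Agent.Y90 Pool.Agent.R915
open Pool.Agent.H204R3.CM (IsCMType)
open Pool.Agent.W547.KB (CMPair CMAV single)
open Pool.Agent.W547.LN (SameType)
open Pool.Agent.N830.HC (av)
open Pool.Agent.N994.PG (SmallPeriods GenericPeriods)
open Pool.Agent.N178.BL (ChowTheory)
open Pool.Agent.N178.MU (Projectors HodgeZero)
open Pool.Agent.N994.VO (AJMap)

/-- Classes of simple abelian varieties: dimension at most three; or the endomorphism algebra is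
an imaginary quadratic field of signature `(p, q)` with `p, q ≤ 3` (and trivial discriminant for
`(3, 3)`); or Albert type I or II of relative dimension at most three; or dimension five and
endomorphism algebra `ℚ`; or Albert type I or II, any dimension, with the largest possible Hodge
group. -/
def Typ (Y : AV) : Prop :=
  finrank ℚ Y.H ≤ 6 ∨ QuadMult Y ∨ RealMult Y ∨ FiveDim Y ∨ FullHodge Y

/-- Each simple factor `Y` of `X` is a factor of an abelian variety with one of the CM types `T k`; or
it has small or generic periods; or it has no complex multiplication, belongs to one of the classes in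
`Typ`, and if `ℚ(√-d)` acts on `Y` with two different multiplicities then `Y` is not a fourfold and
the elliptic curve `E` with complex multiplication by this field is a factor of an abelian variety
with one of the CM types `T k`. -/
def HasFactorsIn {K : Type} (T : K → CMPair) (X : AV) : Prop :=
  ∀ Y, IsFactor Y X → (∃ k, IsFactor Y (av (single (T k)))) ∨ SmallPeriods Y ∨ GenericPeriods Y ∨
    (¬ HasCMult Y ∧ Typ Y ∧ ∀ d : ℚ, Unbalanced Y d → finrank ℚ Y.H ≠ 8 ∧
      ∃ k E, IsFactor E (av (single (T k))) ∧ finrank ℚ E.H = 2 ∧ Unbalanced E d)

/-- All CM types of the CM fields in the block `B` are conjugate, simultaneously: for each family of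
CM types `Ψ k` of the CM fields there is an automorphism of `ℂ` which takes `Ψ k` to the CM type
`T k`, for all `k` in `B`. -/
def AllConjugate {K : Type} (T : K → CMPair) (B : Set K) : Prop :=
  ∀ Ψ : ∀ k, Set ((T k).E →+* ℂ), (∀ k, IsCMType (Ψ k)) →
    ∃ σ : ℂ ≃+* ℂ, ∀ k ∈ B, ∀ φ, φ ∈ Ψ k ↔ (σ : ℂ →+* ℂ).comp φ ∈ (T k).Φ

/-- The CM fields of the block `B` are subfields of a Galois CM field `L` of degree at most six, and
all CM types of `L` occur. -/
def AllTypes {K : Type} (T : K → CMPair) (B : Set K) : Prop :=
  ∃ (L : Type) (_ : Field L) (_ : NumberField L) (_ : IsCMField L),
    (IsGalois ℚ L ∧ (∀ k ∈ B, Nonempty ((T k).E →+* L)) ∧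
      ∀ (Φ : Set (L →+* ℂ)) (hΦ : IsCMType Φ), ∃ k ∈ B, SameType ⟨L, Φ, hΦ⟩ (T k)) ∧
      finrank ℚ L ≤ 6

/-- The total dimension of the block is at most three. -/
def DimAtMostThree {K : Type} (T : K → CMPair) (B : Set K) : Prop :=
  ∃ F : Finset K, (∀ k, k ∈ F ↔ k ∈ B) ∧ ∑ k ∈ F, finrank ℚ (T k).E ≤ 6

/-- The blocks `{k | b k = j}` are independent: automorphisms of `ℂ` can be prescribed separately on
the complex embeddings of the CM fields of the different blocks. (The composita of the Galois
closures of the fields of the different blocks are linearly disjoint over `ℚ`.) -/
def IsIndependent {K J : Type} (T : K → CMPair) (b : K → J) : Prop :=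
  ∀ τ : J → (ℂ ≃+* ℂ), ∃ σ : ℂ ≃+* ℂ, ∀ k (φ : (T k).E →+* ℂ),
    (σ : ℂ →+* ℂ).comp φ = (τ (b k) : ℂ →+* ℂ).comp φ

/-- The condition on the block `B`. -/
def IsGoodBlock {K : Type} (T : K → CMPair) (B : Set K) : Prop :=
  AllConjugate T B ∨ AllTypes T B ∨ DimAtMostThree T B

/-- The classes (a) and (b) of abelian varieties. -/
def IsGood (X : AV) : Prop :=
  (∃ A : AV, finrank ℚ A.H ≤ 6 ∧
    ∀ Y, IsFactor Y X → IsFactor Y A ∨ SmallPeriods Y ∨ GenericPeriods Y) ∨
    ∃ (K J : Type) (_ : Fintype K) (T : K → CMPair) (b : K → J), IsIndependent T b ∧
      (∀ j, IsGoodBlock T {k | b k = j}) ∧ HasFactorsIn T X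

/-- **The Albanese map is injective on the zero-cycles of the direct summand `(X, p)` of the Chow
motive of `X`**, if the Hodge numbers `h^(t, 0)` and `h^(0, t)` of `(X, p)` are zero for all `t ≥ 2`: if
the zero-cycle `z` has degree zero and its Albanese image is torsion then `p_* z = 0`. The cycles on `X`
are the correspondences from the point `O` to `X`. -/
theorem result (C : ChowTheory) (K : Projectors C) (O : AV) (hO : finrank ℚ O.H = 0)
    (A : AJMap K O) (X : AV) (hX : IsGood X) (p : C.Co X X) (hp : C.IsMotive p)
    (hH : ∀ t : ℕ, 2 ≤ t → HodgeZero p t 0 ∧ HodgeZero p 0 t)
    (z : C.Co O X) (hz : C.IsDeg 0 z) (h0 : ∀ ω, C.pb z ω = 0) (ht : A.Triv z) :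
    C.o p z = 0 :=
  Pool.Agent.N994.VO.aj_good0 hX A hO hp hH hz h0 ht

end Pool.Agent.Results.MP_2eeeac_ag.NoHigherForms
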